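import Pool.Agent.N325.DD.UB

set_option autoImplicit false

namespace Pool.Agent.N75.DD

open Finset Pool.Agent.N325.DD

/-- A number in `W 4 q` is `2 ^ i * 3 ^ j`. -/
theorem form_W (q a : ℕ) (ha : a ∈ W 4 q) :
    a = 2 ^ a.factorization 2 * 3 ^ a.factorization 3 := by
  obtain ⟨⟨h1, h2⟩, h3⟩ := mem_W.1 ha
  have hsub : a.factorization.support ⊆ ({2, 3} : Finset ℕ) := by
    intro p hp
    rw [Nat.support_factorization, Nat.mem_primeFactors] at hp
    have h4 := h3 p hp.1 hp.2.1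
    have h5 := hp.1.two_le
    interval_cases p
    · simp
    · simp
  have h6 := Nat.prod_factorization_pow_eq_self (n := a) (by omega)
  rw [Finsupp.prod_of_support_subset _ hsub _ (by intro i _; simp)] at h6
  rw [Finset.prod_pair (by norm_num)] at h6
  exact h6.symm

/-- Three different numbers with the same exponent of three: one of them divides the two others. -/
theorem fiber_le_two (q : ℕ) (A : Finset ℕ) (hA : A ⊆ W 4 q) (hAd : Adm A) (j : ℕ) :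
    (A.filter (fun a => a.factorization 3 = j)).card ≤ 2 := by
  classical
  by_contra hcon
  push Not at hcon
  obtain ⟨S, hS, hSc⟩ := Finset.exists_subset_card_eq (Nat.succ_le_of_lt hcon)
  have hne : S.Nonempty := by
    rw [← Finset.card_pos]; omega
  obtain ⟨a, haS, hmin⟩ := Finset.exists_min_image S (fun a => a.factorization 2) hne
  have hc2 : (S.erase a).card = 2 := by
    rw [Finset.card_erase_of_mem haS, hSc]
  obtain ⟨b, c, hbc, hbcS⟩ := Finset.card_eq_two.1 hc2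
  have hb : b ∈ S.erase a := by rw [hbcS]; simp
  have hc : c ∈ S.erase a := by rw [hbcS]; simp
  rw [Finset.mem_erase] at hb hc
  have key : ∀ x ∈ S, a ∣ x := by
    intro x hx
    have hx1 := Finset.mem_filter.1 (hS hx)
    have ha1 := Finset.mem_filter.1 (hS haS)
    rw [form_W q a (hA ha1.1), form_W q x (hA hx1.1), ha1.2, hx1.2]
    exact Nat.mul_dvd_mul (pow_dvd_pow 2 (hmin x hx)) (dvd_refl _)
  exact hAd a (Finset.mem_filter.1 (hS haS)).1 b (Finset.mem_filter.1 (hS hb.2)).1 c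
    (Finset.mem_filter.1 (hS hc.2)).1 (Ne.symm hb.1) (Ne.symm hc.1) hbc
    ⟨key b hb.2, key c hc.2⟩

theorem G_log (q : ℕ) (hq : 1 ≤ q) : mx (W 4 q) ≤ 2 * (Nat.log 3 q + 1) := by
  classical
  obtain ⟨A, hA, hAd, hc⟩ := exists_mx (W 4 q)
  rw [← hc]
  have hmaps : ∀ a ∈ A, a.factorization 3 ∈ Finset.range (Nat.log 3 q + 1) := by
    intro a ha
    have h1 := form_W q a (hA ha)
    obtain ⟨⟨h2, h3⟩, h4⟩ := mem_W.1 (hA ha)
    rw [Finset.mem_range, Nat.lt_succ_iff]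
    apply Nat.le_log_of_pow_le (by norm_num)
    have h5 : 3 ^ a.factorization 3 ≤ a := Nat.ordProj_le 3 (by omega)
    omega
  have h := Finset.card_le_mul_card_image_of_maps_to hmaps 2
    (fun j _ => fiber_le_two q A hA hAd j)
  rw [Finset.card_range] at h
  exact h

theorem count_log (k0 n q : ℕ) (h0 : 3 ^ k0 ≤ q) (hqn : q ≤ n) :
    Nat.log 3 q = k0 + ((Finset.Ioc k0 n).filter (fun k => 3 ^ k ≤ q)).card := by
  classical
  have hq0 : q ≠ 0 := by
    have : 0 < 3 ^ k0 := by positivity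
    omega
  have h1 : (Finset.Ioc k0 n).filter (fun k => 3 ^ k ≤ q) = Finset.Ioc k0 (Nat.log 3 q) := by
    ext k
    rw [Finset.mem_filter, Finset.mem_Ioc, Finset.mem_Ioc]
    constructor
    · rintro ⟨⟨h2, h3⟩, h4⟩
      exact ⟨h2, Nat.le_log_of_pow_le (by norm_num) h4⟩
    · rintro ⟨h2, h3⟩
      have h5 : 3 ^ k ≤ q := Nat.pow_le_of_le_log hq0 h3
      refine ⟨⟨h2, ?_⟩, h5⟩
      have h6 : k < 3 ^ k := Nat.lt_pow_self (by norm_num)
      omega
  rw [h1, Nat.card_Ioc]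
  have h7 : k0 ≤ Nat.log 3 q := Nat.le_log_of_pow_le (by norm_num) h0
  omega

theorem geo_tail (k0 N : ℕ) :
    (∑ k ∈ Finset.Ioc k0 (k0 + N), (1 : ℝ) / 3 ^ k) ≤ (1 / 2) * (1 / 3 ^ k0) := by
  have key : (∑ k ∈ Finset.Ioc k0 (k0 + N), (1 : ℝ) / 3 ^ k)
      = (1 / 2) * (1 / 3 ^ k0) - (1 / 2) * (1 / 3 ^ (k0 + N)) := by
    induction N with
    | zero => simp
    | succ N ih =>
      rw [← Nat.add_assoc, Finset.sum_Ioc_succ_top (by omega), ih]
      rw [pow_succ (3 : ℝ) (k0 + N)]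
      have : (3 : ℝ) ^ (k0 + N) ≠ 0 := by positivity
      field_simp
      ring
  rw [key]
  have : (0 : ℝ) ≤ (1 / 2) * (1 / 3 ^ (k0 + N)) := by positivity
  linarith

theorem R_filter (k0 n : ℕ) :
    (R 4 n).filter (fun m => 3 ^ k0 ≤ n / m) = R 4 (n / 3 ^ k0) := by
  classical
  ext m
  rw [Finset.mem_filter, mem_R, mem_R]
  have h3 : 0 < 3 ^ k0 := by positivity
  constructor
  · rintro ⟨⟨⟨h1, h2⟩, h4⟩, h5⟩
    refine ⟨⟨h1, ?_⟩, h4⟩
    rw [Nat.le_div_iff_mul_le h3, mul_comm]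
    exact (Nat.le_div_iff_mul_le (by omega)).1 h5
  · rintro ⟨⟨h1, h2⟩, h4⟩
    refine ⟨⟨⟨h1, h2.trans (Nat.div_le_self _ _)⟩, h4⟩, ?_⟩
    rw [Nat.le_div_iff_mul_le (by omega), mul_comm]
    exact (Nat.le_div_iff_mul_le h3).1 h2

theorem card_R_filter (k n : ℕ) :
    (((R 4 n).filter (fun m => 3 ^ k ≤ n / m)).card : ℝ) ≤ (n : ℝ) * (1 / 3 ^ k) := by
  classical
  have h1 : ((R 4 n).filter (fun m => 3 ^ k ≤ n / m)).card ≤ n / 3 ^ k := by
    rw [R_filter]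
    have h2 : R 4 (n / 3 ^ k) ⊆ Finset.Icc 1 (n / 3 ^ k) := by
      intro m hm
      rw [Finset.mem_Icc]
      exact (mem_R.1 hm).1
    have h3 := Finset.card_le_card h2
    rw [Nat.card_Icc, Nat.add_sub_cancel] at h3
    exact h3
  have h4 : ((n / 3 ^ k : ℕ) : ℝ) ≤ (n : ℝ) / ((3 ^ k : ℕ) : ℝ) := Nat.cast_div_le
  have h5 : (((R 4 n).filter (fun m => 3 ^ k ≤ n / m)).card : ℝ) ≤ ((n / 3 ^ k : ℕ) : ℝ) := by
    exact_mod_cast h1
  push_cast at h4
  calc (((R 4 n).filter (fun m => 3 ^ k ≤ n / m)).card : ℝ) ≤ (n : ℝ) / 3 ^ k := h5.trans h4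
    _ = (n : ℝ) * (1 / 3 ^ k) := by ring

theorem tail (k0 n : ℕ) :
    ((∑ m ∈ R 4 n, (if 3 ^ k0 ≤ n / m then 2 * (Nat.log 3 (n / m) + 1) else 0) : ℕ) : ℝ)
      ≤ 2 * (k0 + 1) * ((R 4 (n / 3 ^ k0)).card : ℝ) + (n : ℝ) / 3 ^ k0 := by
  classical
  have h1 : (∑ m ∈ R 4 n, (if 3 ^ k0 ≤ n / m then 2 * (Nat.log 3 (n / m) + 1) else 0) : ℕ)
      ≤ 2 * (k0 + 1) * (R 4 (n / 3 ^ k0)).card
        + 2 * ∑ k ∈ Finset.Ioc k0 n, ((R 4 n).filter (fun m => 3 ^ k ≤ n / m)).card := by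
    rw [← Finset.sum_filter, ← R_filter k0 n]
    have h2 : ∀ m ∈ (R 4 n).filter (fun m => 3 ^ k0 ≤ n / m),
        2 * (Nat.log 3 (n / m) + 1)
          = 2 * (k0 + 1) + 2 * ((Finset.Ioc k0 n).filter (fun k => 3 ^ k ≤ n / m)).card := by
      intro m hm
      rw [Finset.mem_filter] at hm
      rw [count_log k0 n (n / m) hm.2 (Nat.div_le_self _ _)]
      ring
    rw [Finset.sum_congr rfl h2, Finset.sum_add_distrib, Finset.sum_const, smul_eq_mul,
      ← Finset.mul_sum]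
    have h3 : ∑ m ∈ (R 4 n).filter (fun m => 3 ^ k0 ≤ n / m),
        ((Finset.Ioc k0 n).filter (fun k => 3 ^ k ≤ n / m)).card
        ≤ ∑ k ∈ Finset.Ioc k0 n, ((R 4 n).filter (fun m => 3 ^ k ≤ n / m)).card := by
      calc ∑ m ∈ (R 4 n).filter (fun m => 3 ^ k0 ≤ n / m),
            ((Finset.Ioc k0 n).filter (fun k => 3 ^ k ≤ n / m)).card
          ≤ ∑ m ∈ R 4 n, ((Finset.Ioc k0 n).filter (fun k => 3 ^ k ≤ n / m)).card :=
            Finset.sum_le_sum_of_subset (Finset.filter_subset _ _)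
        _ = ∑ m ∈ R 4 n, ∑ k ∈ Finset.Ioc k0 n, (if 3 ^ k ≤ n / m then 1 else 0) := by
            apply Finset.sum_congr rfl
            intro m _
            rw [Finset.card_filter]
        _ = ∑ k ∈ Finset.Ioc k0 n, ∑ m ∈ R 4 n, (if 3 ^ k ≤ n / m then 1 else 0) :=
            Finset.sum_comm
        _ = ∑ k ∈ Finset.Ioc k0 n, ((R 4 n).filter (fun m => 3 ^ k ≤ n / m)).card := by
            apply Finset.sum_congr rfl
            intro k _
            rw [Finset.card_filter]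
    have h4 : ((R 4 n).filter (fun m => 3 ^ k0 ≤ n / m)).card * (2 * (k0 + 1))
        = 2 * (k0 + 1) * ((R 4 n).filter (fun m => 3 ^ k0 ≤ n / m)).card := by ring
    rw [h4]
    omega
  have h5 : (∑ k ∈ Finset.Ioc k0 n, (((R 4 n).filter (fun m => 3 ^ k ≤ n / m)).card : ℝ))
      ≤ (n : ℝ) * ((1 / 2) * (1 / 3 ^ k0)) := by
    calc (∑ k ∈ Finset.Ioc k0 n, (((R 4 n).filter (fun m => 3 ^ k ≤ n / m)).card : ℝ))
        ≤ ∑ k ∈ Finset.Ioc k0 n, (n : ℝ) * (1 / 3 ^ k) :=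
          Finset.sum_le_sum (fun k _ => card_R_filter k n)
      _ ≤ ∑ k ∈ Finset.Ioc k0 (k0 + n), (n : ℝ) * (1 / 3 ^ k) := by
          apply Finset.sum_le_sum_of_subset_of_nonneg
          · intro k hk
            rw [Finset.mem_Ioc] at hk ⊢
            omega
          · intro k _ _
            positivity
      _ = (n : ℝ) * ∑ k ∈ Finset.Ioc k0 (k0 + n), (1 : ℝ) / 3 ^ k := by
          rw [Finset.mul_sum]
      _ ≤ (n : ℝ) * ((1 / 2) * (1 / 3 ^ k0)) :=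
          mul_le_mul_of_nonneg_left (geo_tail k0 n) (Nat.cast_nonneg n)
  have h6 : ((∑ m ∈ R 4 n, (if 3 ^ k0 ≤ n / m then 2 * (Nat.log 3 (n / m) + 1) else 0) : ℕ) : ℝ)
      ≤ ((2 * (k0 + 1) * (R 4 (n / 3 ^ k0)).card
        + 2 * ∑ k ∈ Finset.Ioc k0 n, ((R 4 n).filter (fun m => 3 ^ k ≤ n / m)).card : ℕ) : ℝ) := by
    exact_mod_cast h1
  refine h6.trans ?_
  push_cast
  have h7 : (n : ℝ) / 3 ^ k0 = 2 * ((n : ℝ) * ((1 / 2) * (1 / 3 ^ k0))) := by ring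
  rw [h7]
  have h8 := mul_le_mul_of_nonneg_left h5 (show (0 : ℝ) ≤ 2 by norm_num)
  linarith

end Pool.Agent.N75.DD
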